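import Mathlib

set_option autoImplicit false

/-!
# Quasi-orders between a partial order and a quasi-order

`X` is a finite partially ordered set and `ρ` a transitive relation containing `≤`. We look at the
quasi-orders `σ` with `≤ ⊆ σ ⊆ ρ`. If `ρ` is not `≤`, there is a point `p` such that at most half of
these `σ` have the same elements below `p` as `≤`.
-/

namespace Pool.Agent.Helper51.SubL

universe u

/-- `σ` is a quasi-order between `≤` and `ρ` -/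
structure IsQ {X : Type u} [PartialOrder X] (ρ σ : X → X → Prop) : Prop where
  trans : ∀ a b c, σ a b → σ b c → σ a c
  le : ∀ a b, a ≤ b → σ a b
  sub : ∀ a b, σ a b → ρ a b

variable {X : Type u} [PartialOrder X]

/-- the properties of the chosen point -/
structure Good (ρ : X → X → Prop) (p v₀ : X) : Prop where
  tr : ∀ a b c, ρ a b → ρ b c → ρ a c
  le : ∀ a b, a ≤ b → ρ a b
  h0 : ρ v₀ p
  h0' : ¬ v₀ ≤ p
  h1 : ∀ u, p < u → ∀ q, ρ q p → q ≤ u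
  h2 : ∀ u, ρ p u → p ≤ u ∨ ρ u p

open Classical in
/-- the way back -/
def back (ρ : X → X → Prop) (p v₀ : X) (σ : X → X → Prop) : X → X → Prop :=
  if ∃ a b, σ a b ∧ ¬ a ≤ p ∧ b < p then
    fun a b => σ a b ∧ ¬ (¬ a ≤ p ∧ b ≤ p)
  else if ∀ w, w ≠ p → ¬ (σ p w ∧ σ w p) then
    fun a b => (a ≠ p ∧ b ≠ p ∧ σ a b) ∨ (b = p ∧ a ≤ p) ∨
      (a = p ∧ b ≠ p ∧ (p < b ∨ (ρ b p ∧ ¬ σ b p)))
  else if (σ p v₀ ∧ σ v₀ p) ∧ ∀ w, ρ w p → ¬ w ≤ p → ∀ b, b < p → σ b w then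
    fun a b => (a ≠ p ∧ b ≠ p ∧ σ a b) ∨ (b = p ∧ a ≤ p) ∨
      (a = p ∧ b ≠ p ∧ (p < b ∨ (ρ b p ∧ ¬ b ≤ p)))
  else
    fun a b => (a ≠ p ∧ b ≠ p ∧ σ a b) ∨ (b = p ∧ a ≤ p) ∨
      (a = p ∧ b ≠ p ∧ ∃ c, c < p ∧ (∀ a', a' < p → σ a' c) ∧ σ c b)

/-- pull back along the map that sends `p` to `v` and fixes the other points -/
def Pulled (p v : X) (σ σ' : X → X → Prop) : Prop :=
  (∀ a b, a ≠ p → b ≠ p → (σ' a b ↔ σ a b)) ∧ (∀ a, a ≠ p → (σ' a p ↔ σ a v)) ∧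
    (∀ b, b ≠ p → (σ' p b ↔ σ v b)) ∧ σ' p p

open Classical in
lemma exists_pulled (p v : X) (_ : v ≠ p) (ρ σ : X → X → Prop) {v₀ : X} (hg : Good ρ p v₀)
    (hσ : IsQ ρ σ) (hvρ : ρ v p) (hpv : σ p v) : ∃ σ', IsQ ρ σ' ∧ Pulled p v σ σ' := by
  let f : X → X := fun a => if a = p then v else a
  have fp : f p = v := if_pos rfl
  have fa : ∀ a, a ≠ p → f a = a := fun a ha => if_neg ha
  refine ⟨fun a b => σ (f a) (f b), ⟨fun a b c h1 h2 => hσ.trans _ _ _ h1 h2, ?_, ?_⟩,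
    ?_, ?_, ?_, ?_⟩
  · intro a b hab
    by_cases ha : a = p
    · by_cases hb : b = p
      · rw [ha, hb]
        exact hσ.le _ _ le_rfl
      · rw [ha, fp, fa b hb]
        have : p < b := lt_of_le_of_ne (ha ▸ hab) (Ne.symm hb)
        exact hσ.le _ _ (hg.h1 b this v hvρ)
    · by_cases hb : b = p
      · rw [hb, fp, fa a ha]
        exact hσ.trans _ _ _ (hσ.le _ _ (hb ▸ hab)) hpv
      · rw [fa a ha, fa b hb]
        exact hσ.le _ _ hab
  · intro a b hab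
    by_cases ha : a = p
    · by_cases hb : b = p
      · rw [ha, hb]
        exact hg.le _ _ le_rfl
      · rw [ha, fp, fa b hb] at hab
        rw [ha]
        exact hg.tr _ _ _ (hσ.sub _ _ hpv) (hσ.sub _ _ hab)
    · by_cases hb : b = p
      · rw [hb, fp, fa a ha] at hab
        rw [hb]
        exact hg.tr _ _ _ (hσ.sub _ _ hab) hvρ
      · rw [fa a ha, fa b hb] at hab
        exact hσ.sub _ _ hab
  · intro a b ha hb
    show σ (f a) (f b) ↔ _
    rw [fa a ha, fa b hb]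
  · intro a ha
    show σ (f a) (f p) ↔ _
    rw [fa a ha, fp]
  · intro b hb
    show σ (f p) (f b) ↔ _
    rw [fa b hb, fp]
  · exact hσ.le _ _ le_rfl

/-- case A: the swap -/
lemma exists_swap (p : X) (ρ σ : X → X → Prop) {v₀ : X} (hg : Good ρ p v₀)
    (hσ : IsQ ρ σ) (hC : ¬ ∃ b, b < p ∧ σ p b) :
    ∃ σ', IsQ ρ σ' ∧ (∀ a b, a ≠ p → b ≠ p → (σ' a b ↔ σ a b)) ∧
      (∀ a, a ≠ p → (σ' a p ↔ ρ a p ∧ ¬ σ p a)) ∧
      (∀ b, b ≠ p → (σ' p b ↔ ∃ u, p < u ∧ σ u b)) ∧ σ' p p := by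
  refine ⟨fun a b => a = b ∨ (a ≠ p ∧ b ≠ p ∧ σ a b) ∨ (a ≠ p ∧ b = p ∧ ρ a p ∧ ¬ σ p a) ∨
    (a = p ∧ b ≠ p ∧ ∃ u, p < u ∧ σ u b), ⟨?_, ?_, ?_⟩, ?_, ?_, ?_, Or.inl rfl⟩
  · rintro a b c (rfl | ⟨ha, hb, h⟩ | ⟨ha, rfl, h, h'⟩ | ⟨rfl, hb, u, hu, h⟩)
    · intro h
      exact h
    · rintro (rfl | ⟨-, hc, h2⟩ | ⟨-, rfl, h2, h2'⟩ | ⟨rfl, -, -⟩)
      · exact Or.inr (Or.inl ⟨ha, hb, h⟩)
      · exact Or.inr (Or.inl ⟨ha, hc, hσ.trans _ _ _ h h2⟩)
      · refine Or.inr (Or.inr (Or.inl ⟨ha, rfl, hg.tr _ _ _ (hσ.sub _ _ h) h2, ?_⟩))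
        intro h3
        exact h2' (hσ.trans _ _ _ h3 h)
      · exact absurd rfl hb
    · rintro (rfl | ⟨hb, -, -⟩ | ⟨hb, -, -⟩ | ⟨-, hc, u, hu, h2⟩)
      · exact Or.inr (Or.inr (Or.inl ⟨ha, rfl, h, h'⟩))
      · exact absurd rfl hb
      · exact absurd rfl hb
      · exact Or.inr (Or.inl ⟨ha, hc, hσ.trans _ _ _ (hσ.le _ _ (hg.h1 u hu a h)) h2⟩)
    · rintro (rfl | ⟨-, hc, h2⟩ | ⟨-, rfl, -⟩ | ⟨rfl, -, -⟩)
      · exact Or.inr (Or.inr (Or.inr ⟨rfl, hb, u, hu, h⟩))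
      · exact Or.inr (Or.inr (Or.inr ⟨rfl, hc, u, hu, hσ.trans _ _ _ h h2⟩))
      · exact Or.inl rfl
      · exact absurd rfl hb
  · intro a b hab
    by_cases ha : a = p
    · by_cases hb : b = p
      · exact Or.inl (ha.trans hb.symm)
      · subst ha
        exact Or.inr (Or.inr (Or.inr ⟨rfl, hb, b, lt_of_le_of_ne hab (Ne.symm hb),
          hσ.le _ _ le_rfl⟩))
    · by_cases hb : b = p
      · subst hb
        refine Or.inr (Or.inr (Or.inl ⟨ha, rfl, hg.le _ _ hab, ?_⟩))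
        intro h
        exact hC ⟨a, lt_of_le_of_ne hab ha, h⟩
      · exact Or.inr (Or.inl ⟨ha, hb, hσ.le _ _ hab⟩)
  · rintro a b (rfl | ⟨ha, hb, h⟩ | ⟨ha, rfl, h, h'⟩ | ⟨rfl, hb, u, hu, h⟩)
    · exact hg.le _ _ le_rfl
    · exact hσ.sub _ _ h
    · exact h
    · exact hg.tr _ _ _ (hg.le _ _ hu.le) (hσ.sub _ _ h)
  · intro a b ha hb
    constructor
    · rintro (rfl | ⟨-, -, h⟩ | ⟨-, rfl, -⟩ | ⟨rfl, -, -⟩)
      · exact hσ.le _ _ le_rfl
      · exact h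
      · exact absurd rfl hb
      · exact absurd rfl ha
    · intro h
      exact Or.inr (Or.inl ⟨ha, hb, h⟩)
  · intro a ha
    constructor
    · rintro (rfl | ⟨-, hb, -⟩ | ⟨-, -, h⟩ | ⟨rfl, -, -⟩)
      · exact absurd rfl ha
      · exact absurd rfl hb
      · exact h
      · exact absurd rfl ha
    · intro h
      exact Or.inr (Or.inr (Or.inl ⟨ha, rfl, h⟩))
  · intro b hb
    constructor
    · rintro (rfl | ⟨ha, -, -⟩ | ⟨ha, -, -⟩ | ⟨-, -, h⟩)
      · exact absurd rfl hb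
      · exact absurd rfl ha
      · exact absurd rfl ha
      · exact h
    · intro h
      exact Or.inr (Or.inr (Or.inr ⟨rfl, hb, h⟩))

/-- everything below `c` goes below everything above `d` -/
lemma IsQ.add {ρ σ : X → X → Prop} (hσ : IsQ ρ σ) (tr : ∀ a b c, ρ a b → ρ b c → ρ a c)
    {c d : X} (hcd : ρ c d) : IsQ ρ (fun a b => σ a b ∨ (σ a c ∧ σ d b)) := by
  refine ⟨?_, fun a b h => Or.inl (hσ.le _ _ h), ?_⟩
  · rintro a b c (h | ⟨h, h'⟩) (h2 | ⟨h2, h2'⟩)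
    · exact Or.inl (hσ.trans _ _ _ h h2)
    · exact Or.inr ⟨hσ.trans _ _ _ h h2, h2'⟩
    · exact Or.inr ⟨h, hσ.trans _ _ _ h' h2⟩
    · exact Or.inr ⟨h, h2'⟩
  · rintro a b (h | ⟨h, h'⟩)
    · exact hσ.sub _ _ h
    · exact tr _ _ _ (tr _ _ _ (hσ.sub _ _ h) hcd) (hσ.sub _ _ h')

/-- properties shared by all the partners below -/
structure Spec (ρ : X → X → Prop) (p v₀ : X) (σ : X → X → Prop) : Prop where
  s1 : (¬ ∃ a b, σ a b ∧ ¬ a ≤ p ∧ b < p) → (∀ w, w ≠ p → ¬ (σ p w ∧ σ w p)) →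
    (∀ u, u ≠ p → σ p u → ∃ w, p < w ∧ σ w u) ∧ ∀ w, w ≠ p → ρ w p → ¬ σ w p → ρ p w
  s2 : (∃ a b, σ a b ∧ ¬ a ≤ p ∧ b < p) → σ v₀ p ∧ ∃ b, b < p ∧ σ p b
  s3 : (¬ ∃ a b, σ a b ∧ ¬ a ≤ p ∧ b < p) → (∃ w, w ≠ p ∧ σ p w ∧ σ w p) →
    ¬ (σ p v₀ ∧ σ v₀ p) → ∃ b, b < p ∧ ρ p b

open Classical in
/-- every `σ` with the same points below `p` as `≤` is the way back of some other `σ'` -/
theorem exists_partner (p v₀ : X) (ρ σ : X → X → Prop) (hg : Good ρ p v₀)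
    (hσ : IsQ ρ σ) (hS : ∀ a, σ a p → a ≤ p) :
    ∃ σ', IsQ ρ σ' ∧ (∃ a, σ' a p ∧ ¬ a ≤ p) ∧ Spec ρ p v₀ σ' ∧ back ρ p v₀ σ' = σ := by
  have hclosed : ∀ a b, ¬ a ≤ p → b ≤ p → ¬ σ a b := fun a b ha hb h =>
    ha (hS a (hσ.trans _ _ _ h (hσ.le _ _ hb)))
  have hp : σ p p := hσ.le _ _ le_rfl
  by_cases hC : ∃ b, b < p ∧ σ p b
  · by_cases hC2 : (∀ v, ρ v p → ¬ v ≤ p → ¬ σ p v) ∨
      (∀ v, ρ v p → ¬ v ≤ p → σ v v₀ ∧ σ v₀ v)
    · -- case C2
      obtain ⟨b, hb, hpb⟩ := hC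
      refine ⟨_, hσ.add hg.tr hg.h0, ⟨v₀, Or.inr ⟨hσ.le _ _ le_rfl, hp⟩, hg.h0'⟩,
        ⟨fun h => ?_, fun _ => ?_, fun h => ?_⟩, ?_⟩
      · exact absurd ⟨v₀, b, Or.inr ⟨hσ.le _ _ le_rfl, hpb⟩, hg.h0', hb⟩ h
      · exact ⟨Or.inr ⟨hσ.le _ _ le_rfl, hp⟩, b, hb, Or.inl hpb⟩
      · exact absurd ⟨v₀, b, Or.inr ⟨hσ.le _ _ le_rfl, hpb⟩, hg.h0', hb⟩ h
      unfold back
      rw [if_pos ⟨v₀, b, Or.inr ⟨hσ.le _ _ le_rfl, hpb⟩, hg.h0', hb⟩]
      funext x y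
      apply propext
      constructor
      · rintro ⟨h | ⟨h, h'⟩, h2⟩
        · exact h
        · by_contra hxy
          apply h2
          have hyρ : ρ p y := hσ.sub _ _ h'
          have hxρ : ρ x p := hg.tr _ _ _ (hσ.sub _ _ h) hg.h0
          have hxp : ¬ x ≤ p := fun hx => hxy (hσ.trans _ _ _ (hσ.le _ _ hx) h')
          refine ⟨hxp, ?_⟩
          by_contra hyp
          rcases hg.h2 y hyρ with h3 | h3
          · have h4 : p < y := lt_of_le_of_ne h3 (fun h5 => hyp (h5 ▸ le_rfl))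
            exact hxy (hσ.le _ _ (hg.h1 y h4 x hxρ))
          · rcases hC2 with h4 | h4
            · exact h4 y h3 hyp h'
            · exact hxy (hσ.trans _ _ _ h (h4 y h3 hyp).2)
      · intro h
        exact ⟨Or.inl h, fun ⟨h1, h2⟩ => hclosed x y h1 h2 h⟩
    · -- case C1
      push Not at hC2
      obtain ⟨⟨v₁, hv₁, hv₁', hpv₁⟩, ⟨w₁, hw₁, hw₁', hww⟩⟩ := hC2
      have hex : ∃ v, ρ v p ∧ ¬ v ≤ p ∧ σ p v ∧
          ((∃ w, ρ w p ∧ ¬ w ≤ p ∧ ¬ σ p w) ∨ ¬ (σ v v₀ ∧ σ v₀ v)) := by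
        by_cases hall : ∃ w, ρ w p ∧ ¬ w ≤ p ∧ ¬ σ p w
        · exact ⟨v₁, hv₁, hv₁', hpv₁, Or.inl hall⟩
        · push Not at hall
          exact ⟨w₁, hw₁, hw₁', hall w₁ hw₁ hw₁', Or.inr (fun h => hww h.1 h.2)⟩
      obtain ⟨v, hv, hv', hpv, hor⟩ := hex
      have hvne : v ≠ p := fun h => hv' (h ▸ le_rfl)
      obtain ⟨σ', hσ', hP1, hP2, hP3, hP4⟩ := exists_pulled p v hvne ρ σ hg hσ hv hpv
      have hA3 : ¬ ∃ a b, σ' a b ∧ ¬ a ≤ p ∧ b < p := by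
        rintro ⟨a, b, hab, ha, hb⟩
        rw [hP1 a b (fun h => ha (h ▸ le_rfl)) hb.ne] at hab
        exact hclosed a b ha hb.le hab
      have hEq : ¬ ∀ w, w ≠ p → ¬ (σ' p w ∧ σ' w p) := by
        intro h
        exact h v hvne ⟨(hP3 v hvne).mpr (hσ.le _ _ le_rfl), (hP2 v hvne).mpr (hσ.le _ _ le_rfl)⟩
      obtain ⟨b₀, hb₀, hpb₀⟩ := hC
      refine ⟨σ', hσ', ⟨v, (hP2 v hvne).mpr (hσ.le _ _ le_rfl), hv'⟩,
        ⟨fun _ h => absurd h hEq, fun h => absurd h hA3,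
          fun _ _ _ => ⟨b₀, hb₀, hσ.sub _ _ hpb₀⟩⟩, ?_⟩
      unfold back
      have hB : ¬ ((σ' p v₀ ∧ σ' v₀ p) ∧ ∀ w, ρ w p → ¬ w ≤ p → ∀ b, b < p → σ' b w) := by
        rintro ⟨⟨h1, h2⟩, h3⟩
        have hv₀ : v₀ ≠ p := fun h => hg.h0' (h ▸ le_rfl)
        rw [hP3 v₀ hv₀] at h1
        rw [hP2 v₀ hv₀] at h2
        rcases hor with ⟨w, hw, hw', hpw⟩ | hor
        · have h4 := h3 w hw hw' b₀ hb₀
          rw [hP1 b₀ w hb₀.ne (fun h => hw' (h ▸ le_rfl))] at h4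
          exact hpw (hσ.trans _ _ _ hpb₀ h4)
        · exact hor ⟨h1, h2⟩
      rw [if_neg hA3, if_neg hEq, if_neg hB]
      funext x y
      apply propext
      by_cases hy : y = p
      · subst hy
        constructor
        · rintro (⟨-, h, -⟩ | ⟨-, h⟩ | ⟨-, h, -⟩)
          · exact absurd rfl h
          · exact hσ.le _ _ h
          · exact absurd rfl h
        · intro h
          exact Or.inr (Or.inl ⟨rfl, hS x h⟩)
      · by_cases hx : x = p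
        · subst hx
          constructor
          · rintro (⟨h, -, -⟩ | ⟨h, -⟩ | ⟨-, -, c, hc, hc2, hc3⟩)
            · exact absurd rfl h
            · exact absurd h hy
            · rw [hP1 c y hc.ne hy] at hc3
              have h5 := hc2 b₀ hb₀
              rw [hP1 b₀ c hb₀.ne hc.ne] at h5
              exact hσ.trans _ _ _ (hσ.trans _ _ _ hpb₀ h5) hc3
          · intro h
            refine Or.inr (Or.inr ⟨rfl, hy, b₀, hb₀, ?_, ?_⟩)
            · intro a' ha'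
              rw [hP1 a' b₀ ha'.ne hb₀.ne]
              exact hσ.trans _ _ _ (hσ.le _ _ ha'.le) hpb₀
            · rw [hP1 b₀ y hb₀.ne hy]
              exact hσ.trans _ _ _ (hσ.le _ _ hb₀.le) h
        · constructor
          · rintro (⟨-, -, h⟩ | ⟨h, -⟩ | ⟨h, -⟩)
            · exact (hP1 x y hx hy).mp h
            · exact absurd h hy
            · exact absurd h hx
          · intro h
            exact Or.inl ⟨hx, hy, (hP1 x y hx hy).mpr h⟩
  · by_cases hA : ∃ v, ρ v p ∧ ¬ v ≤ p ∧ ¬ σ p v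
    · -- case A
      obtain ⟨σ', hσ', hP1, hP2, hP3, hP4⟩ := exists_swap p ρ σ hg hσ hC
      obtain ⟨v, hv, hv', hpv⟩ := hA
      have hvne : v ≠ p := fun h => hv' (h ▸ le_rfl)
      have hA3 : ¬ ∃ a b, σ' a b ∧ ¬ a ≤ p ∧ b < p := by
        rintro ⟨a, b, hab, ha, hb⟩
        rw [hP1 a b (fun h => ha (h ▸ le_rfl)) hb.ne] at hab
        exact hclosed a b ha hb.le hab
      have hEq : ∀ w, w ≠ p → ¬ (σ' p w ∧ σ' w p) := by
        rintro w hw ⟨h1, h2⟩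
        rw [hP3 w hw] at h1
        rw [hP2 w hw] at h2
        obtain ⟨u, hu, huw⟩ := h1
        exact h2.2 (hσ.trans _ _ _ (hσ.le _ _ hu.le) huw)
      refine ⟨σ', hσ', ⟨v, (hP2 v hvne).mpr ⟨hv, hpv⟩, hv'⟩,
        ⟨fun _ _ => ⟨?_, ?_⟩, fun h => absurd h hA3, fun _ h => ?_⟩, ?_⟩
      · intro u hu hpu
        obtain ⟨w, hw, hwu⟩ := (hP3 u hu).mp hpu
        by_cases hwp : w = p
        · exact absurd hw (hwp ▸ lt_irrefl _)
        · exact ⟨w, hw, (hP1 w u hwp hu).mpr hwu⟩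
      · intro w hw hwρ hwp
        by_contra hcon
        exact hwp ((hP2 w hw).mpr ⟨hwρ, fun h => hcon (hσ.sub _ _ h)⟩)
      · obtain ⟨w, hw, h1⟩ := h
        exact absurd h1 (hEq w hw)
      unfold back
      rw [if_neg hA3, if_pos hEq]
      funext x y
      apply propext
      by_cases hy : y = p
      · subst hy
        constructor
        · rintro (⟨-, h, -⟩ | ⟨-, h⟩ | ⟨-, h, -⟩)
          · exact absurd rfl h
          · exact hσ.le _ _ h
          · exact absurd rfl h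
        · intro h
          exact Or.inr (Or.inl ⟨rfl, hS x h⟩)
      · by_cases hx : x = p
        · subst hx
          constructor
          · rintro (⟨h, -, -⟩ | ⟨h, -⟩ | ⟨-, -, h | ⟨h, h'⟩⟩)
            · exact absurd rfl h
            · exact absurd h hy
            · exact hσ.le _ _ h.le
            · by_contra hxy
              exact h' ((hP2 y hy).mpr ⟨h, hxy⟩)
          · intro h
            refine Or.inr (Or.inr ⟨rfl, hy, ?_⟩)
            rcases hg.h2 y (hσ.sub _ _ h) with h3 | h3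
            · exact Or.inl (lt_of_le_of_ne h3 (Ne.symm hy))
            · exact Or.inr ⟨h3, fun h4 => ((hP2 y hy).mp h4).2 h⟩
        · constructor
          · rintro (⟨-, -, h⟩ | ⟨h, -⟩ | ⟨h, -⟩)
            · exact (hP1 x y hx hy).mp h
            · exact absurd h hy
            · exact absurd h hx
          · intro h
            exact Or.inl ⟨hx, hy, (hP1 x y hx hy).mpr h⟩
    · -- case B
      push Not at hA
      have hpv : σ p v₀ := hA v₀ hg.h0 hg.h0'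
      have hvne : v₀ ≠ p := fun h => hg.h0' (h ▸ le_rfl)
      obtain ⟨σ', hσ', hP1, hP2, hP3, hP4⟩ := exists_pulled p v₀ hvne ρ σ hg hσ hg.h0 hpv
      have hA3 : ¬ ∃ a b, σ' a b ∧ ¬ a ≤ p ∧ b < p := by
        rintro ⟨a, b, hab, ha, hb⟩
        rw [hP1 a b (fun h => ha (h ▸ le_rfl)) hb.ne] at hab
        exact hclosed a b ha hb.le hab
      have hEq' : σ' p v₀ ∧ σ' v₀ p :=
        ⟨(hP3 v₀ hvne).mpr (hσ.le _ _ le_rfl), (hP2 v₀ hvne).mpr (hσ.le _ _ le_rfl)⟩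
      have hEq : ¬ ∀ w, w ≠ p → ¬ (σ' p w ∧ σ' w p) := fun h => h v₀ hvne hEq'
      refine ⟨σ', hσ', ⟨v₀, (hP2 v₀ hvne).mpr (hσ.le _ _ le_rfl), hg.h0'⟩,
        ⟨fun _ h => absurd h hEq, fun h => absurd h hA3, fun _ _ h => absurd hEq' h⟩, ?_⟩
      unfold back
      have hB : (σ' p v₀ ∧ σ' v₀ p) ∧ ∀ w, ρ w p → ¬ w ≤ p → ∀ b, b < p → σ' b w := by
        refine ⟨hEq', fun w hw hw' b hb => ?_⟩
        rw [hP1 b w hb.ne (fun h => hw' (h ▸ le_rfl))]
        exact hσ.trans _ _ _ (hσ.le _ _ hb.le) (hA w hw hw')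
      rw [if_neg hA3, if_neg hEq, if_pos hB]
      funext x y
      apply propext
      by_cases hy : y = p
      · subst hy
        constructor
        · rintro (⟨-, h, -⟩ | ⟨-, h⟩ | ⟨-, h, -⟩)
          · exact absurd rfl h
          · exact hσ.le _ _ h
          · exact absurd rfl h
        · intro h
          exact Or.inr (Or.inl ⟨rfl, hS x h⟩)
      · by_cases hx : x = p
        · subst hx
          constructor
          · rintro (⟨h, -, -⟩ | ⟨h, -⟩ | ⟨-, -, h | ⟨h, h'⟩⟩)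
            · exact absurd rfl h
            · exact absurd h hy
            · exact hσ.le _ _ h.le
            · exact hA y h h'
          · intro h
            refine Or.inr (Or.inr ⟨rfl, hy, ?_⟩)
            rcases hg.h2 y (hσ.sub _ _ h) with h3 | h3
            · exact Or.inl (lt_of_le_of_ne h3 (Ne.symm hy))
            · refine Or.inr ⟨h3, fun h4 => hC ⟨y, lt_of_le_of_ne h4 hy, h⟩⟩
        · constructor
          · rintro (⟨-, -, h⟩ | ⟨h, -⟩ | ⟨h, -⟩)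
            · exact (hP1 x y hx hy).mp h
            · exact absurd h hy
            · exact absurd h hx
          · intro h
            exact Or.inl ⟨hx, hy, (hP1 x y hx hy).mpr h⟩

/-- at most half of the quasi-orders have the same points below `p` as `≤` -/
theorem card_le [Finite X] (p v₀ : X) (ρ : X → X → Prop) (hg : Good ρ p v₀) :
    Nat.card {σ : X → X → Prop // IsQ ρ σ ∧ ∀ a, σ a p → a ≤ p} ≤
      Nat.card {σ : X → X → Prop // IsQ ρ σ ∧ ¬ ∀ a, σ a p → a ≤ p} := by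
  classical
  choose! f hf using fun σ (h : IsQ ρ σ ∧ ∀ a, σ a p → a ≤ p) =>
    exists_partner p v₀ ρ σ hg h.1 h.2
  refine Nat.card_le_card_of_injective
    (fun σ => ⟨f σ.1, (hf σ.1 σ.2).1, ?_⟩) ?_
  · intro h
    obtain ⟨a, ha, ha'⟩ := (hf σ.1 σ.2).2.1
    exact ha' (h a ha)
  · intro σ₁ σ₂ h
    apply Subtype.ext
    have h' : f σ₁.1 = f σ₂.1 := congrArg Subtype.val h
    rw [← (hf σ₁.1 σ₁.2).2.2.2, ← (hf σ₂.1 σ₂.2).2.2.2, h']

/-- if exactly half of the quasi-orders have the same points below `p` as `≤`, then all the others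
are partners -/
theorem spec_of_card_le [Finite X] (p v₀ : X) (ρ : X → X → Prop) (hg : Good ρ p v₀)
    (hc : Nat.card {σ : X → X → Prop // IsQ ρ σ ∧ ¬ ∀ a, σ a p → a ≤ p} ≤
      Nat.card {σ : X → X → Prop // IsQ ρ σ ∧ ∀ a, σ a p → a ≤ p})
    (τ : X → X → Prop) (hτ : IsQ ρ τ) (hτ' : ¬ ∀ a, τ a p → a ≤ p) : Spec ρ p v₀ τ := by
  classical
  choose! f hf using fun σ (h : IsQ ρ σ ∧ ∀ a, σ a p → a ≤ p) =>
    exists_partner p v₀ ρ σ hg h.1 h.2
  let F : {σ : X → X → Prop // IsQ ρ σ ∧ ∀ a, σ a p → a ≤ p} →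
      {σ : X → X → Prop // IsQ ρ σ ∧ ¬ ∀ a, σ a p → a ≤ p} :=
    fun σ => ⟨f σ.1, (hf σ.1 σ.2).1, fun h => by
      obtain ⟨a, ha, ha'⟩ := (hf σ.1 σ.2).2.1
      exact ha' (h a ha)⟩
  have hinj : Function.Injective F := by
    intro σ₁ σ₂ h
    apply Subtype.ext
    have h' : f σ₁.1 = f σ₂.1 := congrArg Subtype.val h
    rw [← (hf σ₁.1 σ₁.2).2.2.2, ← (hf σ₂.1 σ₂.2).2.2.2, h']
  obtain ⟨σ, hσ⟩ := (hinj.bijective_of_nat_card_le hc).2 ⟨τ, hτ, hτ'⟩
  have h1 : f σ.1 = τ := congrArg Subtype.val hσ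
  rw [← h1]
  exact (hf σ.1 σ.2).2.2.1

theorem card_half [Finite X] (p v₀ : X) (ρ : X → X → Prop) (hg : Good ρ p v₀) :
    2 * Nat.card {σ : X → X → Prop // IsQ ρ σ ∧ ∀ a, σ a p → a ≤ p} ≤
      Nat.card {σ : X → X → Prop // IsQ ρ σ} := by
  classical
  have h1 := card_le p v₀ ρ hg
  have h2 : Nat.card {σ : X → X → Prop // IsQ ρ σ} =
      Nat.card {σ : X → X → Prop // IsQ ρ σ ∧ ∀ a, σ a p → a ≤ p} +
      Nat.card {σ : X → X → Prop // IsQ ρ σ ∧ ¬ ∀ a, σ a p → a ≤ p} := by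
    rw [← Nat.card_sum]
    apply Nat.card_congr
    refine (Equiv.sumCompl (fun σ : {σ : X → X → Prop // IsQ ρ σ} =>
      ∀ a, σ.1 a p → a ≤ p)).symm.trans (Equiv.sumCongr ?_ ?_)
    · exact Equiv.subtypeSubtypeEquivSubtypeInter (fun σ => IsQ ρ σ)
        (fun σ : X → X → Prop => ∀ a, σ a p → a ≤ p)
    · exact Equiv.subtypeSubtypeEquivSubtypeInter (fun σ => IsQ ρ σ)
        (fun σ : X → X → Prop => ¬ ∀ a, σ a p → a ≤ p)
  omega

/-- the choice of `p` -/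
theorem exists_good [Finite X] (ρ : X → X → Prop) (tr : ∀ a b c, ρ a b → ρ b c → ρ a c)
    (le : ∀ a b, a ≤ b → ρ a b) (hne : ∃ a b, ρ a b ∧ ¬ a ≤ b) :
    ∃ p v₀, Good ρ p v₀ := by
  classical
  have := Fintype.ofFinite X
  let K : Finset X := Finset.univ.filter fun p => ∃ q, ρ q p ∧ ¬ q ≤ p
  have hK : K.Nonempty := by
    obtain ⟨a, b, h1, h2⟩ := hne
    exact ⟨b, Finset.mem_filter.mpr ⟨Finset.mem_univ _, a, h1, h2⟩⟩
  let f : X → ℕ := fun p => (Finset.univ.filter fun q => ρ q p).card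
  let g : X → ℕ := fun p => (Finset.univ.filter fun q => q ≤ p).card
  obtain ⟨p, hpK, hmax⟩ := K.exists_max_image (fun p => f p * (Fintype.card X + 1) + g p) hK
  obtain ⟨v₀, hv₀, hv₀'⟩ := (Finset.mem_filter.mp hpK).2
  have hgle : ∀ q, g q ≤ Fintype.card X := fun q => Finset.card_le_univ _
  -- elements above `p` in `ρ` that are in `K` are `ρ`-equivalent to `p`
  have key1 : ∀ u, ρ p u → ¬ ρ u p → ∀ q, ρ q u → q ≤ u := by
    intro u hpu hup
    by_contra hcon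
    push Not at hcon
    obtain ⟨q, hq, hq'⟩ := hcon
    have huK : u ∈ K := Finset.mem_filter.mpr ⟨Finset.mem_univ _, q, hq, hq'⟩
    have h1 := hmax u huK
    have h2 : f p < f u := by
      apply Finset.card_lt_card
      refine ⟨fun x hx => ?_, fun hsub => ?_⟩
      · rw [Finset.mem_filter] at hx ⊢
        exact ⟨hx.1, tr _ _ _ hx.2 hpu⟩
      · have : u ∈ Finset.univ.filter fun q => ρ q p :=
          hsub (Finset.mem_filter.mpr ⟨Finset.mem_univ _, le _ _ le_rfl⟩)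
        exact hup (Finset.mem_filter.mp this).2
    have h3 := hgle p
    have h4 : (f p + 1) * (Fintype.card X + 1) ≤ f u * (Fintype.card X + 1) :=
      Nat.mul_le_mul_right _ h2
    have h1' : f u * (Fintype.card X + 1) + g u ≤ f p * (Fintype.card X + 1) + g p := h1
    nlinarith
  have key2 : ∀ u, p < u → ρ u p → ∀ q, ρ q u → q ≤ u := by
    intro u hpu hup
    by_contra hcon
    push Not at hcon
    obtain ⟨q, hq, hq'⟩ := hcon
    have huK : u ∈ K := Finset.mem_filter.mpr ⟨Finset.mem_univ _, q, hq, hq'⟩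
    have h1 := hmax u huK
    have h2 : f p = f u := by
      apply le_antisymm
      · apply Finset.card_le_card
        intro x hx
        rw [Finset.mem_filter] at hx ⊢
        exact ⟨hx.1, tr _ _ _ hx.2 (le _ _ hpu.le)⟩
      · apply Finset.card_le_card
        intro x hx
        rw [Finset.mem_filter] at hx ⊢
        exact ⟨hx.1, tr _ _ _ hx.2 hup⟩
    have h3 : g p < g u := by
      apply Finset.card_lt_card
      refine ⟨fun x hx => ?_, fun hsub => ?_⟩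
      · rw [Finset.mem_filter] at hx ⊢
        exact ⟨hx.1, hx.2.trans hpu.le⟩
      · have : u ∈ Finset.univ.filter fun q => q ≤ p :=
          hsub (Finset.mem_filter.mpr ⟨Finset.mem_univ _, le_rfl⟩)
        exact absurd (Finset.mem_filter.mp this).2 (not_le_of_gt hpu)
    have h1' : f u * (Fintype.card X + 1) + g u ≤ f p * (Fintype.card X + 1) + g p := h1
    rw [h2] at h1'
    omega
  refine ⟨p, v₀, tr, le, hv₀, hv₀', ?_, ?_⟩
  · intro u hpu q hq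
    have hpu' := le _ _ hpu.le
    by_cases hup : ρ u p
    · exact key2 u hpu hup q (tr _ _ _ hq hpu')
    · exact key1 u hpu' hup q (tr _ _ _ hq hpu')
  · intro u hpu
    by_cases hup : ρ u p
    · exact Or.inr hup
    · exact Or.inl (key1 u hpu hup p hpu)

end Pool.Agent.Helper51.SubL
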