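import Mathlib
import Pool.Agent.Helper51.SubL.Quasi

set_option autoImplicit false

/-!
# Sublattices of a finite distributive lattice and quasi-orders on its prime filters

The sublattices `S` of a finite distributive lattice `L` (the empty one included) correspond to the
quasi-orders `σ` on the set of prime filters of `L` (the empty filter and `L` included) that contain
the reversed inclusion.
-/

namespace Pool.Agent.Helper51.SubL

universe u

/-- prime filters, the empty one and the whole lattice included -/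
structure Pt (L : Type u) [Lattice L] where
  F : Set L
  up : ∀ a b, a ∈ F → a ≤ b → b ∈ F
  inf : ∀ a b, a ∈ F → b ∈ F → a ⊓ b ∈ F
  sup : ∀ a b, a ⊔ b ∈ F → a ∈ F ∨ b ∈ F

variable {L : Type u}

lemma Pt.ext' [Lattice L] {F G : Pt L} (h : F.F = G.F) : F = G := by
  cases F
  cases G
  simp only at h
  subst h
  rfl

/-- reversed inclusion -/
instance [Lattice L] : PartialOrder (Pt L) where
  le F G := G.F ⊆ F.F
  le_refl F := subset_rfl
  le_trans F G H h1 h2 := h2.trans h1
  le_antisymm F G h1 h2 := Pt.ext' (h2.antisymm h1)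

lemma Pt.le_iff [Lattice L] (F G : Pt L) : F ≤ G ↔ G.F ⊆ F.F := Iff.rfl

instance [Lattice L] [Finite L] : Finite (Pt L) :=
  Finite.of_injective (fun F : Pt L => F.F) (fun _ _ h => Pt.ext' h)

/-- the empty filter -/
def Pt.empty (L : Type u) [Lattice L] : Pt L where
  F := ∅
  up _ _ h _ := h
  inf _ _ h _ := h
  sup _ _ h := Or.inl h

/-- the whole lattice -/
def Pt.whole (L : Type u) [Lattice L] : Pt L where
  F := Set.univ
  up _ _ _ _ := Set.mem_univ _
  inf _ _ _ _ := Set.mem_univ _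
  sup _ _ _ := Or.inl (Set.mem_univ _)

/-- separation of two elements by a prime filter -/
lemma exists_pt [DistribLattice L] (a b : L) (h : ¬ a ≤ b) : ∃ G : Pt L, a ∈ G.F ∧ b ∉ G.F := by
  obtain ⟨J, hJ, hI, hF⟩ := DistribLattice.prime_ideal_of_disjoint_filter_ideal
    (F := Order.PFilter.principal a) (I := Order.Ideal.principal b) (by
      rw [Set.disjoint_left]
      intro x hx hx'
      exact h (le_trans (Order.PFilter.mem_principal.mp hx) (Order.Ideal.mem_principal.mp hx')))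
  refine ⟨⟨{x | x ∉ J}, ?_, ?_, ?_⟩, ?_, ?_⟩
  · intro x y hx hxy hy
    exact hx (J.lower hxy hy)
  · intro x y hx hy hxy
    rcases hJ.mem_or_mem hxy with h1 | h1
    · exact hx h1
    · exact hy h1
  · intro x y hxy
    by_contra hcon
    rw [not_or] at hcon
    exact hxy (Order.Ideal.sup_mem (not_not.mp hcon.1) (not_not.mp hcon.2))
  · exact Set.disjoint_left.mp hF (Order.PFilter.mem_principal.mpr le_rfl)
  · intro h1
    exact h1 (hI (Order.Ideal.mem_principal.mpr le_rfl))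

lemma exists_min [Lattice L] [Finite L] (T : Set L) (hne : T.Nonempty)
    (h : ∀ a ∈ T, ∀ b ∈ T, a ⊓ b ∈ T) : ∃ m ∈ T, ∀ t ∈ T, m ≤ t := by
  obtain ⟨m, hm⟩ := (Set.toFinite T).exists_minimal hne
  refine ⟨m, hm.1, fun t ht => ?_⟩
  exact (hm.2 (h m hm.1 t ht) inf_le_left).trans inf_le_right

lemma exists_max [Lattice L] [Finite L] (T : Set L) (hne : T.Nonempty)
    (h : ∀ a ∈ T, ∀ b ∈ T, a ⊔ b ∈ T) : ∃ m ∈ T, ∀ t ∈ T, t ≤ m := by
  obtain ⟨m, hm⟩ := (Set.toFinite T).exists_maximal hne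
  refine ⟨m, hm.1, fun t ht => ?_⟩
  exact le_sup_right.trans (hm.2 (h m hm.1 t ht) le_sup_left)

/-- the quasi-order of a sublattice -/
def rel [Lattice L] (S : Sublattice L) (F G : Pt L) : Prop := ∀ s ∈ S, s ∈ G.F → s ∈ F.F

/-- an element outside a sublattice is separated from it -/
lemma separation [DistribLattice L] [Finite L] (S : Sublattice L) (a : L) (ha : a ∉ S) :
    ∃ F G : Pt L, rel S F G ∧ a ∈ G.F ∧ a ∉ F.F := by
  -- the filter `G`
  obtain ⟨G, hG, hG'⟩ : ∃ G : Pt L, a ∈ G.F ∧ ∀ s ∈ S, s ≤ a → s ∉ G.F ∨ G = Pt.whole L ∧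
      ∀ s ∈ S, ¬ s ≤ a := by
    by_cases hex : ∃ s ∈ S, s ≤ a
    · obtain ⟨m, ⟨hm, hma⟩, hmax⟩ := exists_max {s | s ∈ S ∧ s ≤ a} hex
        (fun x hx y hy => ⟨S.sup_mem hx.1 hy.1, sup_le hx.2 hy.2⟩)
      obtain ⟨G, h1, h2⟩ := exists_pt a m (fun h => ha (le_antisymm h hma ▸ hm))
      refine ⟨G, h1, fun s hs hsa => Or.inl fun h => ?_⟩
      exact h2 (G.up s m h (hmax s ⟨hs, hsa⟩))
    · push Not at hex
      exact ⟨Pt.whole L, Set.mem_univ _, fun s hs h => absurd h (hex s hs)⟩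
  have hG2 : ∀ s ∈ S, s ∈ G.F → ¬ s ≤ a := by
    intro s hs hsG hsa
    rcases hG' s hs hsa with h | h
    · exact h hsG
    · exact h.2 s hs hsa
  by_cases hne : ∃ s, s ∈ S ∧ s ∈ G.F
  · obtain ⟨m, ⟨hm, hmG⟩, hmin⟩ := exists_min {s | s ∈ S ∧ s ∈ G.F} hne
      (fun x hx y hy => ⟨S.inf_mem hx.1 hy.1, G.inf _ _ hx.2 hy.2⟩)
    obtain ⟨F, h1, h2⟩ := exists_pt m a (hG2 m hm hmG)
    exact ⟨F, G, fun s hs hsG => F.up m s h1 (hmin s ⟨hs, hsG⟩), hG, h2⟩
  · push Not at hne
    exact ⟨Pt.empty L, G, fun s hs hsG => absurd hsG (hne s hs), hG, fun h => h⟩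

/-- the sublattice of a quasi-order -/
def sub [Lattice L] (σ : Pt L → Pt L → Prop) : Sublattice L where
  carrier := {a | ∀ F G : Pt L, σ F G → a ∈ G.F → a ∈ F.F}
  supClosed' := by
    intro a ha b hb F G hFG h
    rcases G.sup a b h with h1 | h1
    · exact F.up _ _ (ha F G hFG h1) le_sup_left
    · exact F.up _ _ (hb F G hFG h1) le_sup_right
  infClosed' := by
    intro a ha b hb F G hFG h
    exact F.inf _ _ (ha F G hFG (G.up _ _ h inf_le_left)) (hb F G hFG (G.up _ _ h inf_le_right))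

lemma mem_sub [Lattice L] (σ : Pt L → Pt L → Prop) (a : L) :
    a ∈ sub σ ↔ ∀ F G : Pt L, σ F G → a ∈ G.F → a ∈ F.F := Iff.rfl

lemma sub_rel [DistribLattice L] [Finite L] (S : Sublattice L) : sub (rel S) = S := by
  apply Sublattice.ext
  intro a
  rw [mem_sub]
  constructor
  · intro h
    by_contra hcon
    obtain ⟨F, G, h1, h2, h3⟩ := separation S a hcon
    exact h3 (h F G h1 h2)
  · intro h F G hFG haG
    exact hFG a h haG

lemma isQ_rel [Lattice L] {Z S : Sublattice L} (h : Z ≤ S) : IsQ (rel Z) (rel S) :=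
  ⟨fun _ _ _ h1 h2 s hs hsH => h1 s hs (h2 s hs hsH), fun _ _ hab _ _ hsb => hab hsb,
    fun _ _ hab s hs hsb => hab s (h hs) hsb⟩

lemma le_sub [Lattice L] {Z : Sublattice L} {σ : Pt L → Pt L → Prop} (hσ : IsQ (rel Z) σ) :
    Z ≤ sub σ := fun a ha F G hFG haG => hσ.sub F G hFG a ha haG

lemma exists_join [Lattice L] (s : Finset L) (hs : s.Nonempty) :
    ∃ a, ∀ K : Pt L, a ∈ K.F ↔ ∃ h ∈ s, h ∈ K.F := by
  classical
  induction hs using Finset.Nonempty.cons_induction with
  | singleton a => exact ⟨a, fun K => by simp⟩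
  | cons b s hb hs ih =>
    obtain ⟨a, ha⟩ := ih
    refine ⟨b ⊔ a, fun K => ?_⟩
    constructor
    · intro h
      rcases K.sup _ _ h with h1 | h1
      · exact ⟨b, Finset.mem_cons_self b s, h1⟩
      · obtain ⟨c, hc, hc'⟩ := (ha K).mp h1
        exact ⟨c, Finset.mem_cons_of_mem hc, hc'⟩
    · rintro ⟨c, hc, hc'⟩
      rcases Finset.mem_cons.mp hc with rfl | hc
      · exact K.up _ _ hc' le_sup_left
      · exact K.up _ _ ((ha K).mpr ⟨c, hc, hc'⟩) le_sup_right

lemma rel_sub [Lattice L] [Finite L] {ρ σ : Pt L → Pt L → Prop} (hσ : IsQ ρ σ) :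
    rel (sub σ) = σ := by
  classical
  funext F G
  apply propext
  constructor
  · intro h
    by_cases hG : G = Pt.empty L
    · subst hG
      exact hσ.le _ _ (fun x hx => absurd hx (fun h => h))
    by_cases hE : σ (Pt.empty L) G
    · exact hσ.trans _ _ _ (hσ.le F (Pt.empty L) (fun x hx => absurd hx (fun h => h))) hE
    have hne : ∀ H : Pt L, σ H G → H.F.Nonempty := by
      intro H hH
      by_contra hcon
      rw [Set.not_nonempty_iff_eq_empty] at hcon
      have : H = Pt.empty L := Pt.ext' hcon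
      exact hE (this ▸ hH)
    have hmin : ∀ H : Pt L, ∃ m, σ H G → m ∈ H.F ∧ ∀ t ∈ H.F, m ≤ t := by
      intro H
      by_cases hH : σ H G
      · obtain ⟨m, h1, h2⟩ := exists_min H.F (hne H hH) (fun x hx y hy => H.inf x y hx hy)
        exact ⟨m, fun _ => ⟨h1, h2⟩⟩
      · obtain ⟨m, -⟩ := hne G (hσ.le _ _ le_rfl)
        exact ⟨m, fun h => absurd h hH⟩
    choose m hm using hmin
    have := Fintype.ofFinite (Pt L)
    have := Fintype.ofFinite L
    obtain ⟨a, ha⟩ := exists_join ((Finset.univ.filter fun H : Pt L => σ H G).image m)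
      ⟨m G, Finset.mem_image_of_mem _ (Finset.mem_filter.mpr
        ⟨Finset.mem_univ _, hσ.le _ _ le_rfl⟩)⟩
    have ha' : ∀ K : Pt L, a ∈ K.F ↔ σ K G := by
      intro K
      rw [ha]
      constructor
      · rintro ⟨h, hh, hK⟩
        obtain ⟨H, hH, rfl⟩ := Finset.mem_image.mp hh
        have hH' := (Finset.mem_filter.mp hH).2
        have : K ≤ H := fun x hx => K.up _ _ hK ((hm H hH').2 x hx)
        exact hσ.trans _ _ _ (hσ.le _ _ this) hH'
      · intro hK
        exact ⟨m K, Finset.mem_image_of_mem _ (Finset.mem_filter.mpr ⟨Finset.mem_univ _, hK⟩),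
          (hm K hK).1⟩
    have haS : a ∈ sub σ := by
      intro H K hHK haK
      rw [ha'] at haK ⊢
      exact hσ.trans _ _ _ hHK haK
    exact (ha' F).mp (h a haS ((ha' G).mpr (hσ.le _ _ le_rfl)))
  · intro h a ha haG
    exact ha F G h haG

/-- sublattices above `Z` and quasi-orders inside `rel Z` -/
def equiv [DistribLattice L] [Finite L] (Z : Sublattice L) :
    {S : Sublattice L // Z ≤ S} ≃ {σ : Pt L → Pt L → Prop // IsQ (rel Z) σ} where
  toFun S := ⟨rel S.1, isQ_rel S.2⟩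
  invFun σ := ⟨sub σ.1, le_sub σ.2⟩
  left_inv S := Subtype.ext (sub_rel S.1)
  right_inv σ := Subtype.ext (rel_sub σ.2)

/-- **Main theorem.** Let `Z` be a proper sublattice of the finite distributive lattice `L`. Some
element outside `Z` lies in at most half of the sublattices that contain `Z`. -/
theorem main [DistribLattice L] [Finite L] (Z : Sublattice L) (hZ : Z ≠ ⊤) :
    ∃ x : L, x ∉ Z ∧ 2 * Nat.card {S : Sublattice L // Z ≤ S ∧ x ∈ S} ≤
      Nat.card {S : Sublattice L // Z ≤ S} := by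
  classical
  obtain ⟨a, ha⟩ : ∃ a, a ∉ Z := by
    by_contra hcon
    push Not at hcon
    apply hZ
    apply Sublattice.ext
    intro a
    exact ⟨fun _ => Sublattice.mem_top a, fun _ => hcon a⟩
  obtain ⟨F₀, G₀, h1, h2, h3⟩ := separation Z a ha
  have hr := isQ_rel (le_refl Z)
  obtain ⟨p, v₀, hg⟩ := exists_good (rel Z) hr.trans hr.le ⟨F₀, G₀, h1, fun h => h3 (h h2)⟩
  have hpne : p.F.Nonempty := by
    by_contra hcon
    rw [Set.not_nonempty_iff_eq_empty] at hcon
    refine hg.h0' (fun x hx => ?_)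
    rw [hcon] at hx
    exact absurd hx (Set.notMem_empty x)
  obtain ⟨x, hx, hxmin⟩ := exists_min p.F hpne (fun x hx y hy => p.inf x y hx hy)
  have hxF : ∀ F : Pt L, x ∈ F.F ↔ F ≤ p := fun F =>
    ⟨fun h y hy => F.up _ _ h (hxmin y hy), fun h => h hx⟩
  refine ⟨x, fun hxZ => hg.h0' ((hxF v₀).mp (hg.h0 x hxZ hx)), ?_⟩
  have hiff : ∀ S : Sublattice L, x ∈ S ↔ ∀ F, rel S F p → F ≤ p := by
    intro S
    constructor
    · intro hxS F hF
      exact (hxF F).mp (hF x hxS hx)
    · intro h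
      by_contra hcon
      obtain ⟨F, G, h1, h2, h3⟩ := separation S x hcon
      have hGp : G ≤ p := (hxF G).mp h2
      exact h3 ((hxF F).mpr (h F (fun s hs hsp => h1 s hs (hGp hsp))))
  have e1 : Nat.card {S : Sublattice L // Z ≤ S} =
      Nat.card {σ : Pt L → Pt L → Prop // IsQ (rel Z) σ} := Nat.card_congr (equiv Z)
  have e2 : Nat.card {S : Sublattice L // Z ≤ S ∧ x ∈ S} =
      Nat.card {σ : Pt L → Pt L → Prop // IsQ (rel Z) σ ∧ ∀ F, σ F p → F ≤ p} := by
    apply Nat.card_congr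
    refine (Equiv.subtypeSubtypeEquivSubtypeInter (fun S : Sublattice L => Z ≤ S)
      (fun S => x ∈ S)).symm.trans (Equiv.trans ?_
      (Equiv.subtypeSubtypeEquivSubtypeInter (fun σ : Pt L → Pt L → Prop => IsQ (rel Z) σ)
      (fun σ => ∀ F, σ F p → F ≤ p)))
    exact (equiv Z).subtypeEquiv (fun S => hiff S.1)
  rw [e1, e2]
  exact card_half p v₀ (rel Z) hg

end Pool.Agent.Helper51.SubL
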