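import Mathlib
import Pool.Agent.Helper51.SubL.Quasi

set_option autoImplicit false

/-!
# The case of equality

If exactly half of the quasi-orders `σ` have the same points below `p` as `≤`, then `ρ` puts only one
further point `v` below `p`, and either `v` is above `p` in `≤` or `ρ` does not put `v` below any other
point that is below `p`.
-/

namespace Pool.Agent.Helper51.SubL

universe u

variable {X : Type u} [PartialOrder X]

lemma Good.change {ρ : X → X → Prop} {p v₀ : X} (hg : Good ρ p v₀) {v : X} (h1 : ρ v p)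
    (h2 : ¬ v ≤ p) : Good ρ p v := ⟨hg.tr, hg.le, h1, h2, hg.h1, hg.h2⟩

lemma Good.isQ_le {ρ : X → X → Prop} {p v₀ : X} (hg : Good ρ p v₀) :
    IsQ ρ (fun a b : X => a ≤ b) :=
  ⟨fun _ _ _ h1 h2 => h1.trans h2, fun _ _ h => h, hg.le⟩

/-- all the other quasi-orders satisfy `Spec` -/
def Tight (ρ : X → X → Prop) (p : X) : Prop :=
  ∀ v, ρ v p → ¬ v ≤ p → ∀ τ, IsQ ρ τ → (∃ a, τ a p ∧ ¬ a ≤ p) → Spec ρ p v τ

lemma step1 {ρ : X → X → Prop} {p v₀ : X} (hg : Good ρ p v₀) (ht : Tight ρ p) {v w : X}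
    (hv : ρ v p) (hv' : ¬ v ≤ p) (hv2 : ¬ p < v) (hw : ρ w p) (hw' : ¬ w ≤ p) (hw2 : ¬ p < w) :
    w ≤ v := by
  by_contra hwv
  have hpv : ¬ p ≤ v := fun h => hv2 (lt_of_le_of_ne h (fun h' => hv' (h' ▸ le_rfl)))
  have hpw : ¬ p ≤ w := fun h => hw2 (lt_of_le_of_ne h (fun h' => hw' (h' ▸ le_rfl)))
  have hT := hg.isQ_le.add hg.tr hv
  have hs := ht v hv hv' _ hT ⟨v, Or.inr ⟨le_rfl, le_rfl⟩, hv'⟩
  have h1 := (hs.s1 (by
    rintro ⟨a, b, h | ⟨h, h'⟩, ha, hb⟩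
    · exact ha (h.trans hb.le)
    · exact absurd h' (not_le_of_gt hb)) (by
    rintro x hx ⟨h1 | ⟨h1, -⟩, h2⟩
    · rcases h2 with h2 | ⟨h2, -⟩
      · exact hx (le_antisymm h2 h1)
      · exact hpv (h1.trans h2)
    · exact hpv h1)).2 w (fun h => hw' (h ▸ le_rfl)) hw (by
    rintro (h | ⟨h, -⟩)
    · exact hw' h
    · exact hwv h)
  have hT' := hT.add hg.tr h1
  have hs' := ht v hv hv' _ hT' ⟨v, Or.inl (Or.inr ⟨le_rfl, le_rfl⟩), hv'⟩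
  obtain ⟨x, hx, hxw⟩ := (hs'.s1 (by
    rintro ⟨a, b, (h | ⟨h, h'⟩) | ⟨-, (h | ⟨h, -⟩)⟩, ha, hb⟩
    · exact ha (h.trans hb.le)
    · exact absurd h' (not_le_of_gt hb)
    · exact hw' (h.trans hb.le)
    · exact hwv h) (by
    rintro x hx ⟨h1, h2⟩
    have h3 : p ≤ x ∨ w ≤ x := by
      rcases h1 with (h | ⟨h, -⟩) | ⟨-, (h | ⟨h, -⟩)⟩
      · exact Or.inl h
      · exact absurd h hpv
      · exact Or.inr h
      · exact absurd h hwv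
    have h4 : x ≤ p ∨ x ≤ v := by
      rcases h2 with (h | ⟨h, -⟩) | ⟨(h | ⟨h, -⟩), -⟩
      · exact Or.inl h
      · exact Or.inr h
      · exact Or.inl h
      · exact Or.inr h
    rcases h3 with h3 | h3
    · rcases h4 with h4 | h4
      · exact hx (le_antisymm h4 h3)
      · exact hpv (h3.trans h4)
    · rcases h4 with h4 | h4
      · exact hw' (h3.trans h4)
      · exact hwv (h3.trans h4))).1 w (fun h => hw' (h ▸ le_rfl))
      (Or.inr ⟨Or.inl le_rfl, Or.inl le_rfl⟩)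
  rcases hxw with (h | ⟨h, -⟩) | ⟨(h | ⟨h, -⟩), -⟩
  · exact hw2 (lt_of_lt_of_le hx h)
  · exact hv2 (lt_of_lt_of_le hx h)
  · exact absurd h (not_le_of_gt hx)
  · exact hv2 (lt_of_lt_of_le hx h)

lemma step2 {ρ : X → X → Prop} {p v₀ : X} (hg : Good ρ p v₀) (ht : Tight ρ p) {v e : X}
    (hv : ρ v p) (hv' : ¬ v ≤ p) (hv2 : ¬ p < v) (he : ρ e p) (he2 : p < e) : False := by
  have he' : ¬ e ≤ p := not_le_of_gt he2
  have hpv : ¬ p ≤ v := fun h => hv2 (lt_of_le_of_ne h (fun h' => hv' (h' ▸ le_rfl)))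
  by_cases hb : ∃ b, b < p ∧ ρ p b
  · obtain ⟨b, hb, hpb⟩ := hb
    have hT1 := hg.isQ_le.add hg.tr hpb
    have hT := hT1.add hg.tr hv
    have hs := ht e he he' _ hT ⟨v, Or.inr ⟨Or.inl le_rfl, Or.inl le_rfl⟩, hv'⟩
    have h1 := (hs.s2 ⟨v, b, Or.inr ⟨Or.inl le_rfl, Or.inr ⟨le_rfl, le_rfl⟩⟩, hv', hb⟩).1
    rcases h1 with (h | ⟨h, -⟩) | ⟨(h | ⟨h, -⟩), -⟩
    · exact he' h
    · exact he' h
    · exact hv2 (lt_of_lt_of_le he2 h)
    · exact he' h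
  · have hT := hg.isQ_le.add hg.tr he
    have hs := ht v hv hv' _ hT ⟨e, Or.inr ⟨le_rfl, le_rfl⟩, he'⟩
    apply hb
    refine hs.s3 ?_ ⟨e, he2.ne', Or.inl he2.le, Or.inr ⟨le_rfl, le_rfl⟩⟩ ?_
    · rintro ⟨a, b, h | ⟨h, h'⟩, ha, hb⟩
      · exact ha (h.trans hb.le)
      · exact absurd h' (not_le_of_gt hb)
    · rintro ⟨h | ⟨-, h⟩, -⟩
      · exact hpv h
      · exact hpv h

theorem tight_structure {ρ : X → X → Prop} {p v₀ : X} (hg : Good ρ p v₀) (ht : Tight ρ p) :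
    ∃ v, ρ v p ∧ ¬ v ≤ p ∧ (∀ a, ρ a p → a ≤ p ∨ a = v) ∧ (p < v ∨ ∀ b, b < p → ¬ ρ v b) := by
  by_cases hex : ∃ e, ρ e p ∧ p < e
  · obtain ⟨e, he, hpe⟩ := hex
    refine ⟨e, he, not_le_of_gt hpe, fun a ha => ?_, Or.inl hpe⟩
    by_contra hcon
    rw [not_or] at hcon
    by_cases hpa : p < a
    · exact hcon.2 (le_antisymm (hg.h1 e hpe a ha) (hg.h1 a hpa e he))
    · exact step2 hg ht ha hcon.1 hpa he hpe
  · push Not at hex
    refine ⟨v₀, hg.h0, hg.h0', fun a ha => ?_, Or.inr fun b hb hvb => ?_⟩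
    · by_contra hcon
      rw [not_or] at hcon
      exact hcon.2 (le_antisymm
        (step1 hg ht hg.h0 hg.h0' (hex _ hg.h0) ha hcon.1 (hex _ ha))
        (step1 hg ht ha hcon.1 (hex _ ha) hg.h0 hg.h0' (hex _ hg.h0)))
    · have hT := hg.isQ_le.add hg.tr hvb
      have hs := ht v₀ hg.h0 hg.h0' _ hT ⟨v₀, Or.inr ⟨le_rfl, hb.le⟩, hg.h0'⟩
      obtain ⟨b', hb', hpb'⟩ := (hs.s2 ⟨v₀, b, Or.inr ⟨le_rfl, le_rfl⟩, hg.h0', hb⟩).2
      rcases hpb' with h | ⟨h, -⟩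
      · exact absurd h (not_le_of_gt hb')
      · exact hex v₀ hg.h0 (lt_of_le_of_ne h (fun h' => hg.h0' (h' ▸ le_rfl)))

/-- in the case of equality a quasi-order that puts a further point below `p` is determined by its
pairs that do not lead from outside into the set of the points below `p` -/
theorem tight_inj {ρ : X → X → Prop} {p v₀ : X} (hg : Good ρ p v₀) (ht : Tight ρ p)
    {τ₁ τ₂ : X → X → Prop} (h1 : IsQ ρ τ₁) (h2 : IsQ ρ τ₂) (h1' : ∃ a, τ₁ a p ∧ ¬ a ≤ p)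
    (h2' : ∃ a, τ₂ a p ∧ ¬ a ≤ p)
    (h : ∀ a b, (τ₁ a b ∧ ¬ (¬ a ≤ p ∧ b ≤ p)) ↔ (τ₂ a b ∧ ¬ (¬ a ≤ p ∧ b ≤ p))) :
    τ₁ = τ₂ := by
  obtain ⟨v, hv, hv', huniq, hor⟩ := tight_structure hg ht
  have key : ∀ (τ₁ τ₂ : X → X → Prop), IsQ ρ τ₁ → IsQ ρ τ₂ → (∃ a, τ₁ a p ∧ ¬ a ≤ p) →
      (∃ a, τ₂ a p ∧ ¬ a ≤ p) →
      (∀ a b, (τ₁ a b ∧ ¬ (¬ a ≤ p ∧ b ≤ p)) ↔ (τ₂ a b ∧ ¬ (¬ a ≤ p ∧ b ≤ p))) →
      ∀ a b, τ₁ a b → τ₂ a b := by
    intro τ₁ τ₂ h1 h2 h1' h2' h a b hab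
    obtain ⟨a₂, ha₂, ha₂'⟩ := h2'
    have hva₂ : a₂ = v := (huniq a₂ (h2.sub _ _ ha₂)).resolve_left ha₂'
    subst hva₂
    by_cases hcase : ¬ a ≤ p ∧ b ≤ p
    · have haρ : ρ a p := h1.sub _ _ (h1.trans _ _ _ hab (h1.le _ _ hcase.2))
      have hav : a = a₂ := (huniq a haρ).resolve_left hcase.1
      subst hav
      by_cases hbp : b = p
      · rw [hbp]
        exact ha₂
      · have hblt : b < p := lt_of_le_of_ne hcase.2 hbp
        rcases hor with hpv | hor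
        · have h3 : τ₁ p b := h1.trans _ _ _ (h1.le _ _ hpv.le) hab
          have h4 := (h p b).mp ⟨h3, fun h5 => h5.1 le_rfl⟩
          exact h2.trans _ _ _ ha₂ h4.1
        · exact absurd (h1.sub _ _ hab) (hor b hblt)
    · exact ((h a b).mp ⟨hab, hcase⟩).1
  funext a b
  apply propext
  exact ⟨key τ₁ τ₂ h1 h2 h1' h2' h a b, key τ₂ τ₁ h2 h1 h2' h1' (fun a b => (h a b).symm) a b⟩

end Pool.Agent.Helper51.SubL
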