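import Mathlib
import Pool.Agent.Helper51.SubL.Dual
import Pool.Agent.Helper51.SubL.Equality

set_option autoImplicit false

/-!
# The strict form

If every element outside the sublattice `Z` lies in at least half of the sublattices containing `Z`,
then it lies in exactly half of them; if moreover the sublattices containing `Z` separate the elements
outside `Z`, every set containing `Z` is a sublattice.
-/

namespace Pool.Agent.Helper51.SubL

universe u

variable {L : Type u}

/-- **Main step.** -/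
theorem main_step [DistribLattice L] [Finite L] (Z : Sublattice L) (hZ : Z ≠ ⊤) :
    ∃ x : L, x ∉ Z ∧ 2 * Nat.card {S : Sublattice L // Z ≤ S ∧ x ∈ S} ≤
      Nat.card {S : Sublattice L // Z ≤ S} ∧
      (Nat.card {S : Sublattice L // Z ≤ S} ≤ 2 * Nat.card {S : Sublattice L // Z ≤ S ∧ x ∈ S} →
        ∀ T₁ T₂ : Sublattice L, Z ≤ T₁ → Z ≤ T₂ → x ∉ T₁ → x ∉ T₂ →
        (∀ S : Sublattice L, x ∈ S → (T₁ ≤ S ↔ T₂ ≤ S)) → T₁ = T₂) := by
  classical
  obtain ⟨a, ha⟩ : ∃ a, a ∉ Z := by
    by_contra hcon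
    push Not at hcon
    apply hZ
    apply Sublattice.ext
    intro a
    exact ⟨fun _ => Sublattice.mem_top a, fun _ => hcon a⟩
  obtain ⟨F₀, G₀, h1, h2, h3⟩ := separation Z a ha
  have hr := isQ_rel (le_refl Z)
  obtain ⟨p, v₀, hg⟩ := exists_good (rel Z) hr.trans hr.le ⟨F₀, G₀, h1, fun h => h3 (h h2)⟩
  have hpne : p.F.Nonempty := by
    by_contra hcon
    rw [Set.not_nonempty_iff_eq_empty] at hcon
    refine hg.h0' (fun x hx => ?_)
    rw [hcon] at hx
    exact absurd hx (Set.notMem_empty x)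
  obtain ⟨x, hx, hxmin⟩ := exists_min p.F hpne (fun x hx y hy => p.inf x y hx hy)
  have hxF : ∀ F : Pt L, x ∈ F.F ↔ F ≤ p := fun F =>
    ⟨fun h y hy => F.up _ _ h (hxmin y hy), fun h => h hx⟩
  have hiff : ∀ S : Sublattice L, x ∈ S ↔ ∀ F, rel S F p → F ≤ p := by
    intro S
    constructor
    · intro hxS F hF
      exact (hxF F).mp (hF x hxS hx)
    · intro h
      by_contra hcon
      obtain ⟨F, G, h1, h2, h3⟩ := separation S x hcon
      have hGp : G ≤ p := (hxF G).mp h2
      exact h3 ((hxF F).mpr (h F (fun s hs hsp => h1 s hs (hGp hsp))))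
  have e1 : Nat.card {S : Sublattice L // Z ≤ S} =
      Nat.card {σ : Pt L → Pt L → Prop // IsQ (rel Z) σ} := Nat.card_congr (equiv Z)
  have e2 : Nat.card {S : Sublattice L // Z ≤ S ∧ x ∈ S} =
      Nat.card {σ : Pt L → Pt L → Prop // IsQ (rel Z) σ ∧ ∀ F, σ F p → F ≤ p} := by
    apply Nat.card_congr
    refine (Equiv.subtypeSubtypeEquivSubtypeInter (fun S : Sublattice L => Z ≤ S)
      (fun S => x ∈ S)).symm.trans (Equiv.trans ?_
      (Equiv.subtypeSubtypeEquivSubtypeInter (fun σ : Pt L → Pt L → Prop => IsQ (rel Z) σ)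
      (fun σ => ∀ F, σ F p → F ≤ p)))
    exact (equiv Z).subtypeEquiv (fun S => hiff S.1)
  refine ⟨x, fun hxZ => hg.h0' ((hxF v₀).mp (hg.h0 x hxZ hx)), ?_, ?_⟩
  · rw [e1, e2]
    exact card_half p v₀ (rel Z) hg
  · intro hle T₁ T₂ hT₁ hT₂ hx₁ hx₂ hS
    rw [e1, e2] at hle
    have hsplit : Nat.card {σ : Pt L → Pt L → Prop // IsQ (rel Z) σ} =
        Nat.card {σ : Pt L → Pt L → Prop // IsQ (rel Z) σ ∧ ∀ a, σ a p → a ≤ p} +
        Nat.card {σ : Pt L → Pt L → Prop // IsQ (rel Z) σ ∧ ¬ ∀ a, σ a p → a ≤ p} := by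
      rw [← Nat.card_sum]
      apply Nat.card_congr
      refine (Equiv.sumCompl (fun σ : {σ : Pt L → Pt L → Prop // IsQ (rel Z) σ} =>
        ∀ a, σ.1 a p → a ≤ p)).symm.trans (Equiv.sumCongr ?_ ?_)
      · exact Equiv.subtypeSubtypeEquivSubtypeInter (fun σ => IsQ (rel Z) σ)
          (fun σ : Pt L → Pt L → Prop => ∀ a, σ a p → a ≤ p)
      · exact Equiv.subtypeSubtypeEquivSubtypeInter (fun σ => IsQ (rel Z) σ)
          (fun σ : Pt L → Pt L → Prop => ¬ ∀ a, σ a p → a ≤ p)
    have hc : Nat.card {σ : Pt L → Pt L → Prop // IsQ (rel Z) σ ∧ ¬ ∀ a, σ a p → a ≤ p} ≤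
        Nat.card {σ : Pt L → Pt L → Prop // IsQ (rel Z) σ ∧ ∀ a, σ a p → a ≤ p} := by omega
    have ht : Tight (rel Z) p := by
      intro v hv hv' τ hτ hτ'
      refine spec_of_card_le p v (rel Z) (hg.change hv hv') hc τ hτ ?_
      intro h
      obtain ⟨a, ha, ha'⟩ := hτ'
      exact ha' (h a ha)
    have hT : ∀ T : Sublattice L, x ∉ T → ∃ a, rel T a p ∧ ¬ a ≤ p := by
      intro T hxT
      by_contra hcon
      push Not at hcon
      exact hxT ((hiff T).mpr hcon)
    -- the relations with the pairs into the points below `p` removed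
    have key : ∀ T₁ T₂ : Sublattice L, (∀ S : Sublattice L, x ∈ S → (T₁ ≤ S ↔ T₂ ≤ S)) →
        ∀ a b, (rel T₁ a b ∧ ¬ (¬ a ≤ p ∧ b ≤ p)) → (rel T₂ a b ∧ ¬ (¬ a ≤ p ∧ b ≤ p)) := by
      intro T₁ T₂ hS a b hab
      refine ⟨?_, hab.2⟩
      have h1 : x ∈ sub (fun a b : Pt L => rel T₁ a b ∧ ¬ (¬ a ≤ p ∧ b ≤ p)) := by
        intro F G hFG hG
        rw [hxF] at hG ⊢
        by_contra hF
        exact hFG.2 ⟨hF, hG⟩
      have h2 : T₁ ≤ sub (fun a b : Pt L => rel T₁ a b ∧ ¬ (¬ a ≤ p ∧ b ≤ p)) :=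
        fun t ht F G hFG hG => hFG.1 t ht hG
      have h3 := (hS _ h1).mp h2
      intro s hs hsb
      exact h3 hs a b hab hsb
    have hrel := tight_inj hg ht (isQ_rel hT₁) (isQ_rel hT₂) (hT T₁ hx₁) (hT T₂ hx₂)
      (fun a b => ⟨key T₁ T₂ hS a b, key T₂ T₁ (fun S hxS => (hS S hxS).symm) a b⟩)
    rw [← sub_rel T₁, ← sub_rel T₂, hrel]

/-- the sublattice with one element -/
def single [Lattice L] (x : L) : Sublattice L where
  carrier := {x}
  supClosed' := by
    rintro a rfl b rfl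
    exact sup_idem _
  infClosed' := by
    rintro a rfl b rfl
    exact inf_idem _

lemma single_le [Lattice L] (x : L) (S : Sublattice L) : single x ≤ S ↔ x ∈ S :=
  ⟨fun h => h (Set.mem_singleton x), fun h y hy => by
    have : y = x := hy
    rw [this]
    exact h⟩

lemma join_le [Lattice L] (Z S : Sublattice L) (x : L) :
    Z ⊔ single x ≤ S ↔ Z ≤ S ∧ x ∈ S := by
  rw [sup_le_iff, single_le]

instance [Lattice L] [Finite L] : Finite (Sublattice L) :=
  Finite.of_injective (fun S : Sublattice L => (S : Set L)) SetLike.coe_injective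

/-- number of sublattices containing `Z` -/
noncomputable def tot [Lattice L] (Z : Sublattice L) : ℕ := Nat.card {S : Sublattice L // Z ≤ S}

/-- number of sublattices containing `Z` and `y` -/
noncomputable def cnt [Lattice L] (Z : Sublattice L) (y : L) : ℕ :=
  Nat.card {S : Sublattice L // Z ≤ S ∧ y ∈ S}

lemma cnt_eq [Lattice L] (Z : Sublattice L) (y : L) : cnt Z y = tot (Z ⊔ single y) := by
  unfold cnt tot
  apply Nat.card_congr
  exact Equiv.subtypeEquivRight fun S => (join_le Z S y).symm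

open Classical in
/-- the sublattices containing `Z` with `y` and without `x`, as a finset -/
noncomputable def without [Lattice L] [Finite L] (Z : Sublattice L) (x : L) :
    Finset (Sublattice L) :=
  (Set.toFinite {T : Sublattice L | Z ≤ T ∧ x ∉ T}).toFinset

lemma mem_without [Lattice L] [Finite L] (Z : Sublattice L) (x : L) (T : Sublattice L) :
    T ∈ without Z x ↔ Z ≤ T ∧ x ∉ T := by
  unfold without
  rw [Set.Finite.mem_toFinset]
  rfl

open Classical in
lemma tot_split [Lattice L] [Finite L] (Z : Sublattice L) (x : L) :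
    tot Z = tot (Z ⊔ single x) + (without Z x).card := by
  have e : (without Z x).card = Nat.card {T : Sublattice L // Z ≤ T ∧ x ∉ T} := by
    have h1 := Set.ncard_eq_toFinset_card {T : Sublattice L | Z ≤ T ∧ x ∉ T} (Set.toFinite _)
    have h2 := Nat.card_coe_set_eq {T : Sublattice L | Z ≤ T ∧ x ∉ T}
    unfold without
    rw [← h1, ← h2]
    rfl
  rw [e, ← cnt_eq]
  unfold tot cnt
  rw [← Nat.card_sum]
  apply Nat.card_congr
  refine (Equiv.sumCompl (fun S : {S : Sublattice L // Z ≤ S} => x ∈ S.1)).symm.trans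
    (Equiv.sumCongr ?_ ?_)
  · exact Equiv.subtypeSubtypeEquivSubtypeInter (fun S => Z ≤ S) (fun S : Sublattice L => x ∈ S)
  · exact Equiv.subtypeSubtypeEquivSubtypeInter (fun S => Z ≤ S) (fun S : Sublattice L => x ∉ S)

open Classical in
lemma cnt_split [Lattice L] [Finite L] (Z : Sublattice L) (x y : L) :
    cnt Z y = cnt (Z ⊔ single x) y + ((without Z x).filter (y ∈ ·)).card := by
  rw [cnt_eq, cnt_eq, tot_split (Z ⊔ single y) x]
  congr 1
  · congr 1
    rw [sup_assoc, sup_assoc, sup_comm (single y)]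
  · congr 1
    ext T
    rw [Finset.mem_filter, mem_without, mem_without, join_le]
    tauto

/-- if every element outside `Z` lies in at least half of the sublattices containing `Z`, then it
lies in exactly half of them; if moreover these sublattices separate the elements outside `Z`, then
every set containing `Z` is a sublattice -/
theorem rigid [DistribLattice L] [Finite L] (Z : Sublattice L)
    (h : ∀ y, y ∉ Z → tot Z ≤ 2 * cnt Z y) :
    (∀ y, y ∉ Z → 2 * cnt Z y = tot Z) ∧
    ((∀ y, y ∉ Z → ∀ y', y' ∉ Z → y ≠ y' → ∃ S : Sublattice L, Z ≤ S ∧ ¬ (y ∈ S ↔ y' ∈ S)) →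
      ∀ A : Set L, (∀ z ∈ Z, z ∈ A) → ∃ S : Sublattice L, ∀ a, a ∈ S ↔ a ∈ A) := by
  classical
  have hwf : WellFounded ((· > ·) : Sublattice L → Sublattice L → Prop) := wellFounded_gt
  revert h
  induction Z using hwf.induction with
  | _ Z ih =>
  intro h
  by_cases hZ : Z = ⊤
  · subst hZ
    refine ⟨fun y hy => absurd (Sublattice.mem_top y) hy, fun _ A hA => ⟨⊤, fun a => ?_⟩⟩
    exact ⟨fun ha => hA a ha, fun _ => Sublattice.mem_top a⟩
  obtain ⟨x, hxZ, hx1, hx2⟩ := main_step Z hZ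
  have hx3 := hx2 (h x hxZ)
  have hx4 : 2 * cnt Z x = tot Z := le_antisymm hx1 (h x hxZ)
  set Z' := Z ⊔ single x with hZ'
  have hxZ' : x ∈ Z' := ((join_le Z Z' x).mp le_rfl).2
  have hZZ' : Z ≤ Z' := le_sup_left
  have hlt : Z' > Z := lt_of_le_of_ne hZZ' (fun h' => hxZ (h' ▸ hxZ'))
  have hsplit := tot_split Z x
  rw [cnt_eq] at hx4
  rw [← hZ'] at hx4 hsplit
  have hcardW : (without Z x).card = tot Z' := by omega
  -- the map `T ↦ T ⊔ single x`
  have hinj : ∀ T₁ ∈ without Z x, ∀ T₂ ∈ without Z x, T₁ ⊔ single x = T₂ ⊔ single x → T₁ = T₂ := by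
    intro T₁ h₁ T₂ h₂ he
    rw [mem_without] at h₁ h₂
    refine hx3 T₁ T₂ h₁.1 h₂.1 h₁.2 h₂.2 (fun S hxS => ?_)
    have e1 := join_le T₁ S x
    have e2 := join_le T₂ S x
    rw [he] at e1
    constructor
    · intro h5
      exact (e2.mp (e1.mpr ⟨h5, hxS⟩)).1
    · intro h5
      exact (e1.mp (e2.mpr ⟨h5, hxS⟩)).1
  have hr1 : ∀ T ∈ without Z x, Z' ≤ T ⊔ single x := by
    intro T hT
    rw [mem_without] at hT
    exact sup_le_sup_right hT.1 _
  -- all sublattices containing `Z'`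
  let U : Finset (Sublattice L) := (Set.toFinite {S : Sublattice L | Z' ≤ S}).toFinset
  have hU : ∀ S, S ∈ U ↔ Z' ≤ S := fun S => by
    show S ∈ (Set.toFinite {S : Sublattice L | Z' ≤ S}).toFinset ↔ _
    rw [Set.Finite.mem_toFinset]
    rfl
  have hUcard : U.card = tot Z' := by
    have h1 := Set.ncard_eq_toFinset_card {S : Sublattice L | Z' ≤ S} (Set.toFinite _)
    have h2 := Nat.card_coe_set_eq {S : Sublattice L | Z' ≤ S}
    show (Set.toFinite {S : Sublattice L | Z' ≤ S}).toFinset.card = _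
    rw [← h1, ← h2]
    rfl
  have himg : (without Z x).image (fun T => T ⊔ single x) = U := by
    apply Finset.eq_of_subset_of_card_le
    · intro S hS
      obtain ⟨T, hT, rfl⟩ := Finset.mem_image.mp hS
      exact (hU _).mpr (hr1 T hT)
    · rw [Finset.card_image_of_injOn (fun T₁ h₁ T₂ h₂ he => hinj T₁ h₁ T₂ h₂ he), hcardW, hUcard]
  -- elements of `Z'` outside `Z` are in no `T`
  have hin : ∀ y, y ∈ Z' → y ∉ Z → ∀ T ∈ without Z x, y ∉ T := by
    intro y hyZ' hyZ T hT hyT
    rw [mem_without] at hT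
    have h6 : Z ⊔ single y ≤ T := (join_le Z T y).mpr ⟨hT.1, hyT⟩
    have h7 : Z ⊔ single y = Z := by
      refine hx3 (Z ⊔ single y) Z le_sup_left le_rfl (fun h8 => hT.2 (h6 h8)) hxZ (fun S hxS => ?_)
      constructor
      · intro h9
        exact le_sup_left.trans h9
      · intro h9
        exact (join_le Z S y).mpr ⟨h9, ((join_le Z S x).mpr ⟨h9, hxS⟩) hyZ'⟩
    exact hyZ (h7 ▸ ((join_le Z (Z ⊔ single y) y).mp le_rfl).2)
  -- the count of the sublattices with `y` whose image contains `y`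
  have hcnt : ∀ y, ((without Z x).filter (fun T => y ∈ T ⊔ single x)).card = cnt Z' y := by
    intro y
    have h1 : ((without Z x).filter (fun T => y ∈ T ⊔ single x)).image (fun T => T ⊔ single x) =
        U.filter (y ∈ ·) := by
      rw [← himg, Finset.filter_image]
    have h2 : (((without Z x).filter (fun T => y ∈ T ⊔ single x)).image
        (fun T => T ⊔ single x)).card =
        ((without Z x).filter (fun T => y ∈ T ⊔ single x)).card := by
      apply Finset.card_image_of_injOn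
      intro T₁ h₁ T₂ h₂ he
      exact hinj T₁ (Finset.mem_filter.mp h₁).1 T₂ (Finset.mem_filter.mp h₂).1 he
    rw [← h2, h1]
    have h3 := Set.ncard_eq_toFinset_card {S : Sublattice L | Z' ≤ S ∧ y ∈ S} (Set.toFinite _)
    have h4 := Nat.card_coe_set_eq {S : Sublattice L | Z' ≤ S ∧ y ∈ S}
    have h5 : U.filter (y ∈ ·) =
        (Set.toFinite {S : Sublattice L | Z' ≤ S ∧ y ∈ S}).toFinset := by
      ext S
      rw [Finset.mem_filter, hU, Set.Finite.mem_toFinset]
      rfl
    rw [h5, ← h3, ← h4]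
    rfl
  have hsub : ∀ y, (without Z x).filter (y ∈ ·) ⊆
      (without Z x).filter (fun T => y ∈ T ⊔ single x) := by
    intro y T hT
    rw [Finset.mem_filter] at hT ⊢
    exact ⟨hT.1, (le_sup_left : T ≤ T ⊔ single x) hT.2⟩
  have hh : ∀ y, y ∉ Z' → tot Z' ≤ 2 * cnt Z' y := by
    intro y hy
    have h1 := h y (fun h' => hy (hZZ' h'))
    have h2 := cnt_split Z x y
    have h3 := Finset.card_le_card (hsub y)
    rw [hcnt y] at h3
    rw [← hZ'] at h2
    omega
  obtain ⟨ih1, ih2⟩ := ih Z' hlt hh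
  have hA : ∀ y, y ∉ Z → 2 * cnt Z y = tot Z := by
    intro y hy
    have h2 := cnt_split Z x y
    rw [← hZ'] at h2
    by_cases hyZ' : y ∈ Z'
    · have h3 : (without Z x).filter (y ∈ ·) = ∅ := by
        rw [Finset.filter_eq_empty_iff]
        exact fun T hT => hin y hyZ' hy T hT
      have h4 : cnt Z' y = tot Z' := by
        rw [cnt_eq]
        congr 1
        exact le_antisymm ((join_le Z' Z' y).mpr ⟨le_rfl, hyZ'⟩) le_sup_left
      rw [h3, Finset.card_empty] at h2
      omega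
    · have h1 := h y hy
      have h3 := Finset.card_le_card (hsub y)
      rw [hcnt y] at h3
      have h4 := ih1 y hyZ'
      omega
  refine ⟨hA, fun hsep A hZA => ?_⟩
  have hback : ∀ y, y ∉ Z' → ∀ T ∈ without Z x, y ∈ T ⊔ single x → y ∈ T := by
    intro y hy T hT hyT
    have h1 : (without Z x).filter (y ∈ ·) =
        (without Z x).filter (fun T => y ∈ T ⊔ single x) := by
      apply Finset.eq_of_subset_of_card_le (hsub y)
      rw [hcnt y]
      have h2 := cnt_split Z x y
      rw [← hZ'] at h2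
      have h3 := ih1 y hy
      have h4 := hA y (fun h' => hy (hZZ' h'))
      omega
    have h5 : T ∈ (without Z x).filter (fun T => y ∈ T ⊔ single x) :=
      Finset.mem_filter.mpr ⟨hT, hyT⟩
    rw [← h1] at h5
    exact (Finset.mem_filter.mp h5).2
  -- `Z'` is `Z` and `x`
  have hZ'x : ∀ y, y ∈ Z' → y ∉ Z → y = x := by
    intro y hy hyZ
    by_contra hyx
    obtain ⟨S, hS, hS'⟩ := hsep y hyZ x hxZ hyx
    apply hS'
    by_cases hxS : x ∈ S
    · exact ⟨fun _ => hxS, fun _ => ((join_le Z S x).mpr ⟨hS, hxS⟩) hy⟩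
    · exact ⟨fun hyS => absurd hyS (hin y hy hyZ S ((mem_without _ _ _).mpr ⟨hS, hxS⟩)),
        fun h => absurd h hxS⟩
  have hsep' : ∀ y, y ∉ Z' → ∀ y', y' ∉ Z' → y ≠ y' →
      ∃ S : Sublattice L, Z' ≤ S ∧ ¬ (y ∈ S ↔ y' ∈ S) := by
    intro y hy y' hy' hne
    obtain ⟨S, hS, hS'⟩ := hsep y (fun h' => hy (hZZ' h')) y' (fun h' => hy' (hZZ' h')) hne
    by_cases hxS : x ∈ S
    · exact ⟨S, (join_le Z S x).mpr ⟨hS, hxS⟩, hS'⟩
    · have hSW := (mem_without Z x S).mpr ⟨hS, hxS⟩
      refine ⟨S ⊔ single x, hr1 S hSW, fun hiff => hS' ?_⟩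
      constructor
      · intro h1
        exact hback y' hy' S hSW (hiff.mp ((le_sup_left : S ≤ S ⊔ single x) h1))
      · intro h1
        exact hback y hy S hSW (hiff.mpr ((le_sup_left : S ≤ S ⊔ single x) h1))
  have hfull := ih2 hsep'
  by_cases hxA : x ∈ A
  · refine hfull A (fun z hz => ?_)
    by_cases hzZ : z ∈ Z
    · exact hZA z hzZ
    · rw [hZ'x z hz hzZ]
      exact hxA
  · obtain ⟨S, hS⟩ := hfull (insert x A) (fun z hz => by
      by_cases hzZ : z ∈ Z
      · exact Set.mem_insert_of_mem _ (hZA z hzZ)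
      · rw [hZ'x z hz hzZ]
        exact Set.mem_insert _ _)
    have hSU : S ∈ U := by
      rw [hU, join_le]
      exact ⟨fun z hz => (hS z).mpr (Set.mem_insert_of_mem _ (hZA z hz)),
        (hS x).mpr (Set.mem_insert _ _)⟩
    rw [← himg] at hSU
    obtain ⟨T, hT, hTS⟩ := Finset.mem_image.mp hSU
    have hT' := (mem_without _ _ _).mp hT
    refine ⟨T, fun a => ?_⟩
    by_cases ha : a ∈ Z'
    · by_cases haZ : a ∈ Z
      · exact ⟨fun _ => hZA a haZ, fun _ => hT'.1 haZ⟩
      · rw [hZ'x a ha haZ]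
        exact ⟨fun h' => absurd h' hT'.2, fun h' => absurd h' hxA⟩
    · have hax : a ≠ x := fun h' => ha (h' ▸ hxZ')
      constructor
      · intro haT
        have h1 : a ∈ S := hTS ▸ ((le_sup_left : T ≤ T ⊔ single x) haT)
        exact (Set.mem_insert_iff.mp ((hS a).mp h1)).resolve_left hax
      · intro haA
        apply hback a ha T hT
        rw [show T ⊔ single x = S from hTS]
        exact (hS a).mpr (Set.mem_insert_of_mem _ haA)

end Pool.Agent.Helper51.SubL
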