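import Mathlib
import Pool.Agent.Helper51.SubL.Strict

set_option autoImplicit false

/-!
# The families of complements of sublattices
-/

namespace Pool.Agent.Helper51.SubL

universe u

variable {L : Type u}

/-- `A` is the family of the complements of the sublattices containing `Z` -/
def IsFam [Lattice L] (Z : Sublattice L) (A : Finset (Finset L)) : Prop :=
  ∀ X : Finset L, X ∈ A ↔ ∃ S : Sublattice L, Z ≤ S ∧ ∀ x, x ∈ X ↔ x ∉ S

lemma IsFam.union [Lattice L] [DecidableEq L] {Z : Sublattice L} {A : Finset (Finset L)}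
    (hA : IsFam Z A) : ∀ X ∈ A, ∀ Y ∈ A, X ∪ Y ∈ A := by
  intro X hX Y hY
  obtain ⟨S, hS, hS'⟩ := (hA X).mp hX
  obtain ⟨T, hT, hT'⟩ := (hA Y).mp hY
  refine (hA _).mpr ⟨S ⊓ T, le_inf hS hT, fun x => ?_⟩
  rw [Finset.mem_union, hS', hT', Sublattice.mem_inf]
  tauto

/-- the members are in bijection with the sublattices containing `Z` -/
noncomputable def IsFam.toSub [Lattice L] {Z : Sublattice L} {A : Finset (Finset L)}
    (hA : IsFam Z A) (X : {X : Finset L // X ∈ A}) : {S : Sublattice L // Z ≤ S} :=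
  ⟨((hA X.1).mp X.2).choose, ((hA X.1).mp X.2).choose_spec.1⟩

lemma IsFam.toSub_spec [Lattice L] {Z : Sublattice L} {A : Finset (Finset L)}
    (hA : IsFam Z A) (X : {X : Finset L // X ∈ A}) (x : L) :
    x ∈ X.1 ↔ x ∉ (hA.toSub X).1 := ((hA X.1).mp X.2).choose_spec.2 x

lemma IsFam.toSub_bijective [Lattice L] [Fintype L] {Z : Sublattice L} {A : Finset (Finset L)}
    (hA : IsFam Z A) : Function.Bijective hA.toSub := by
  classical
  constructor
  · intro X Y h
    apply Subtype.ext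
    ext x
    rw [hA.toSub_spec X, hA.toSub_spec Y, h]
  · intro S
    have hm : ∀ x, x ∈ Finset.univ.filter (fun x => x ∉ S.1) ↔ x ∉ S.1 := fun x => by
      rw [Finset.mem_filter]
      exact ⟨fun h => h.2, fun h => ⟨Finset.mem_univ _, h⟩⟩
    refine ⟨⟨Finset.univ.filter (fun x => x ∉ S.1), (hA _).mpr ⟨S.1, S.2, hm⟩⟩, ?_⟩
    apply Subtype.ext
    apply Sublattice.ext
    intro x
    have h := hA.toSub_spec ⟨Finset.univ.filter (fun x => x ∉ S.1), (hA _).mpr ⟨S.1, S.2, hm⟩⟩ x
    rw [hm] at h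
    exact (not_iff_not.mp h).symm

lemma IsFam.card [Lattice L] [Fintype L] {Z : Sublattice L} {A : Finset (Finset L)}
    (hA : IsFam Z A) : A.card = tot Z := by
  unfold tot
  rw [← Nat.card_congr (Equiv.ofBijective _ hA.toSub_bijective), Nat.card_eq_fintype_card,
    Fintype.card_coe]

lemma IsFam.card_without [Lattice L] [Fintype L] [DecidableEq L] {Z : Sublattice L}
    {A : Finset (Finset L)} (hA : IsFam Z A) (x : L) :
    (A.filter fun X => x ∉ X).card = cnt Z x := by
  classical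
  unfold cnt
  have e1 : (A.filter fun X => x ∉ X).card = Nat.card {X : Finset L // X ∈ A ∧ x ∉ X} := by
    rw [Nat.card_eq_fintype_card]
    rw [Fintype.card_of_subtype (A.filter fun X => x ∉ X)]
    intro X
    rw [Finset.mem_filter]
  rw [e1]
  apply Nat.card_congr
  refine (Equiv.subtypeSubtypeEquivSubtypeInter (fun X : Finset L => X ∈ A)
    (fun X => x ∉ X)).symm.trans (Equiv.trans ?_
    (Equiv.subtypeSubtypeEquivSubtypeInter (fun S : Sublattice L => Z ≤ S) (fun S => x ∈ S)))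
  refine (Equiv.ofBijective _ hA.toSub_bijective).subtypeEquiv (fun X => ?_)
  show x ∉ X.1 ↔ x ∈ (hA.toSub X).1
  rw [hA.toSub_spec X, not_not]

lemma IsFam.card_with [Lattice L] [Fintype L] [DecidableEq L] {Z : Sublattice L}
    {A : Finset (Finset L)} (hA : IsFam Z A) (x : L) :
    (A.filter fun X => x ∈ X).card + cnt Z x = tot Z := by
  rw [← hA.card_without x, ← hA.card]
  exact Finset.card_filter_add_card_filter_not _

lemma IsFam.mem_sup [Lattice L] [Fintype L] [DecidableEq L] {Z : Sublattice L}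
    {A : Finset (Finset L)} (hA : IsFam Z A) (x : L) : x ∈ A.sup id ↔ x ∉ Z := by
  classical
  constructor
  · intro h
    obtain ⟨X, hX, hx⟩ := Finset.mem_sup.mp h
    obtain ⟨S, hS, hS'⟩ := (hA X).mp hX
    exact fun hxZ => (hS' x).mp hx (hS hxZ)
  · intro h
    have hm : ∀ y, y ∈ Finset.univ.filter (fun y => y ∉ Z) ↔ y ∉ Z := fun y => by
      rw [Finset.mem_filter]
      exact ⟨fun h => h.2, fun h => ⟨Finset.mem_univ _, h⟩⟩
    exact Finset.mem_sup.mpr ⟨_, (hA _).mpr ⟨Z, le_rfl, hm⟩, (hm x).mpr h⟩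

theorem half [DistribLattice L] [Fintype L] [DecidableEq L] (Z : Sublattice L) (hZ : Z ≠ ⊤)
    (A : Finset (Finset L)) (hA : IsFam Z A) :
    ∃ x : L, A.card ≤ 2 * (A.filter fun X => x ∈ X).card := by
  obtain ⟨x, -, hx, -⟩ := main_step Z hZ
  refine ⟨x, ?_⟩
  have h1 := hA.card_with x
  have h2 := hA.card
  have h3 : 2 * cnt Z x ≤ tot Z := hx
  omega

theorem strict [DistribLattice L] [Fintype L] [DecidableEq L] (Z : Sublattice L)
    (A : Finset (Finset L)) (hA : IsFam Z A)
    (hsep : ∀ x ∈ A.sup id, ∀ y ∈ A.sup id, x ≠ y → ∃ X ∈ A, ¬ (x ∈ X ↔ y ∈ X))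
    (hpow : A ≠ (A.sup id).powerset) :
    ∃ x : L, A.card < 2 * (A.filter fun X => x ∈ X).card := by
  classical
  by_contra hcon
  push Not at hcon
  apply hpow
  have h : ∀ y, y ∉ Z → tot Z ≤ 2 * cnt Z y := by
    intro y _
    have h1 := hA.card_with y
    have h2 := hA.card
    have h3 := hcon y
    omega
  have hfull := (rigid Z h).2 (by
    intro y hy y' hy' hne
    obtain ⟨X, hX, hX'⟩ := hsep y ((hA.mem_sup y).mpr hy) y' ((hA.mem_sup y').mpr hy') hne
    obtain ⟨S, hS, hS'⟩ := (hA X).mp hX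
    refine ⟨S, hS, fun h => hX' ?_⟩
    rw [hS', hS', h])
  ext X
  rw [Finset.mem_powerset]
  constructor
  · intro hX x hx
    exact Finset.mem_sup.mpr ⟨X, hX, hx⟩
  · intro hX
    obtain ⟨S, hS⟩ := hfull {x | x ∉ X} (by
      intro z hz hzX
      exact (hA.mem_sup z).mp (hX hzX) hz)
    refine (hA X).mpr ⟨S, fun z hz => ?_, fun x => ?_⟩
    · exact (hS z).mpr (fun hzX => (hA.mem_sup z).mp (hX hzX) hz)
    · constructor
      · intro hx hxS
        exact (hS x).mp hxS hx
      · intro hxS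
        by_contra hx
        exact hxS ((hS x).mpr hx)

end Pool.Agent.Helper51.SubL
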